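import Pool.Agent.MHP.Stmts

/-!
# Squad MHP, row INF: the two functionals are invariant under isomorphisms
-/

set_option autoImplicit false

namespace Pool.Agent.MHP.H46

open Pool.Agent.HMT

theorem mu_iso (P : GProp) {V W : Type} [Finite V] [Finite W] (G : SimpleGraph V)
    (H : SimpleGraph W) (h : Nonempty (G ≃g H)) : mu P G = mu P H := by
  unfold mu
  have h1 := P.iso G H h
  by_cases hm : P.mem G
  · rw [if_pos hm, if_pos (h1.1 hm)]
  · rw [if_neg hm, if_neg (fun h' => hm (h1.2 h'))]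

/-- the transported graph is the image graph -/
theorem eq_map {V W : Type} (e : V ≃ W) (T : SimpleGraph V) (T' : SimpleGraph W)
    (hT : ∀ a b, T'.Adj (e a) (e b) ↔ T.Adj a b) : T' = T.map e.toEmbedding := by
  ext a b
  obtain ⟨a, rfl⟩ := e.surjective a
  obtain ⟨b, rfl⟩ := e.surjective b
  rw [hT, SimpleGraph.map_adj]
  constructor
  · intro h
    exact ⟨a, b, h, rfl, rfl⟩
  · rintro ⟨u, v, h, h1, h2⟩
    have h1' : u = a := e.injective h1
    have h2' : v = b := e.injective h2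
    rw [← h1', ← h2']
    exact h

theorem map_adj_equiv {V W : Type} (e : V ≃ W) (T : SimpleGraph V) (a b : V) :
    (T.map e.toEmbedding).Adj (e a) (e b) ↔ T.Adj a b := by
  rw [SimpleGraph.map_adj]
  constructor
  · rintro ⟨u, v, h, h1, h2⟩
    have h1' : u = a := e.injective h1
    have h2' : v = b := e.injective h2
    rw [← h1', ← h2']
    exact h
  · intro h
    exact ⟨a, b, h, rfl, rfl⟩

theorem inf (emb : EmbStmt) : InfStmt := by
  intro P
  constructor
  · intro V W _ _ e S T S' T' hS hT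
    have hT' : T' = T.map e.toEmbedding := eq_map e T T' hT
    show tog T (fun Y => mu P (S ⊔ Y)) = tog T' (fun Y => mu P (S' ⊔ Y))
    rw [hT', emb]
    congr 1
    funext Z
    apply mu_iso
    refine ⟨⟨e, ?_⟩⟩
    intro a b
    show (S' ⊔ Z.map e.toEmbedding).Adj (e a) (e b) ↔ (S ⊔ Z).Adj a b
    rw [SimpleGraph.sup_adj, SimpleGraph.sup_adj, hS, map_adj_equiv]
  · intro V W _ _ e S T S' T' hS hT
    funext i
    show (hc P (S ⊔ T) i : ℤ) = (hc P (S' ⊔ T') i : ℤ)
    have h := Pool.Agent.HMT.H84.hci P V W (S ⊔ T) (S' ⊔ T') ⟨⟨e, by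
      intro a b
      show (S' ⊔ T').Adj (e a) (e b) ↔ (S ⊔ T).Adj a b
      rw [SimpleGraph.sup_adj, SimpleGraph.sup_adj, hS, hT]⟩⟩ i
    rw [h]

end Pool.Agent.MHP.H46
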